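import Pool.Agent.W990.EB.Stm

/-!
# S_V3: lower bound of the form by the zero fibre
-/

set_option autoImplicit false

namespace Pool.Agent.W177.EB

open Finset Pool.Agent.W990.EB

variable {ι : Type}

lemma en_eq (I : Finset ι) (m : ι → ℤ) (U : ι → ℝ) :
    En I m U = ∑ z ∈ I.image m, (fib I m U z) ^ 2 := by
  have h1 : ∀ z, (fib I m U z) ^ 2 = ∑ i ∈ I, ∑ j ∈ I,
      (if m i = z then U i else 0) * (if m j = z then U j else 0) := by
    intro z
    unfold fib
    rw [sq, Finset.sum_mul_sum]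
  rw [Finset.sum_congr rfl fun z _ => h1 z, Finset.sum_comm]
  unfold En
  refine Finset.sum_congr rfl fun i hi => ?_
  rw [Finset.sum_comm]
  refine Finset.sum_congr rfl fun j _ => ?_
  rw [Finset.sum_eq_single (m i)]
  · rw [if_pos rfl]
    by_cases h : m i = m j
    · rw [if_pos h, if_pos h.symm]
    · rw [if_neg h, if_neg fun h' => h h'.symm, mul_zero]
  · intro z _ hz
    rw [if_neg fun h => hz h.symm, zero_mul]
  · intro h
    exact absurd (mem_image_of_mem m hi) h

lemma fib_zero (I : Finset ι) (m : ι → ℤ) (U : ι → ℝ) (z : ℤ) (hz : z ∉ I.image m) :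
    fib I m U z = 0 := by
  unfold fib
  refine Finset.sum_eq_zero fun i hi => ?_
  rw [if_neg]
  intro h
  exact hz (by rw [← h]; exact mem_image_of_mem m hi)

lemma sum_fib_le (I : Finset ι) (m : ι → ℤ) (U : ι → ℝ) (Z : Finset ℤ) :
    ∑ z ∈ Z, (fib I m U z) ^ 2 ≤ En I m U := by
  rw [en_eq]
  have h1 : ∑ z ∈ Z, (fib I m U z) ^ 2 ≤ ∑ z ∈ Z ∪ I.image m, (fib I m U z) ^ 2 :=
    Finset.sum_le_sum_of_subset_of_nonneg subset_union_left fun _ _ _ => sq_nonneg _
  have h2 : ∑ z ∈ I.image m, (fib I m U z) ^ 2 = ∑ z ∈ Z ∪ I.image m, (fib I m U z) ^ 2 :=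
    Finset.sum_subset subset_union_right fun z _ hz => by rw [fib_zero I m U z hz]; norm_num
  rw [h2]
  exact h1

lemma w_neg (K : ℕ) (z : ℤ) : w K (-z) = w K z := by
  unfold w
  congr 1
  · by_cases h : z = 0
    · subst h; simp
    · rw [if_neg h, if_neg (by omega)]
  · congr 1
    rw [Finset.sum_comm]
    refine Finset.sum_congr rfl fun i _ => Finset.sum_congr rfl fun j _ => ?_
    by_cases h : z = (i : ℤ) - j
    · rw [if_pos h, if_pos (by omega)]
    · rw [if_neg h, if_neg (by omega)]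

lemma w_zero (K : ℕ) (hK : 1 ≤ K) : w K 0 = 1 - 1 / K := by
  have hK0 : (K : ℝ) ≠ 0 := by positivity
  unfold w
  have h1 : ∀ i ∈ range K, ∑ j ∈ range K, (if (0 : ℤ) = (i : ℤ) - (j : ℤ) then (1 : ℝ) else 0) = 1 := by
    intro i hi
    rw [Finset.sum_eq_single i]
    · rw [if_pos (by omega)]
    · intro j _ hj
      rw [if_neg (by omega)]
    · intro h; exact absurd hi h
  rw [if_pos rfl, Finset.sum_congr rfl h1, Finset.sum_const, card_range, nsmul_eq_mul, mul_one]
  field_simp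

lemma w_ne (K : ℕ) (z : ℤ) (hz : z ≠ 0) : w K z =
    -(1 / (K : ℝ) ^ 2 * ∑ i ∈ range K, ∑ j ∈ range K,
      (if z = (i : ℤ) - (j : ℤ) then (1 : ℝ) else 0)) := by
  unfold w
  rw [if_neg hz, zero_sub]

theorem v3 (h1 : S_V1) : S_V3 := by
  intro ι K I m U hK
  have hKr : (1 : ℝ) ≤ K := by exact_mod_cast hK
  have hK0 : (0 : ℝ) < K := by linarith
  obtain ⟨V, hV⟩ : ∃ V : ι → ℝ, V = fun i => if m i = 0 then U i else 0 := ⟨_, rfl⟩
  obtain ⟨U', hU'⟩ : ∃ U' : ι → ℝ, U' = fun i => if m i = 0 then 0 else U i := ⟨_, rfl⟩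
  obtain ⟨g0, hg0⟩ : ∃ g0, g0 = fib I m U 0 := ⟨_, rfl⟩
  obtain ⟨Q, hQ⟩ : ∃ Q, Q = ∑ i ∈ I, w K (m i) * U' i := ⟨_, rfl⟩
  obtain ⟨E, hE⟩ : ∃ E, E = En I m U := ⟨_, rfl⟩
  have hsumV : ∑ i ∈ I, V i = g0 := by rw [hg0, hV]; rfl
  -- the decomposition
  have hdec : W K I m U = W K I m U' + (1 - 1 / K) * g0 ^ 2 + 2 * g0 * Q := by
    have e1 : ∀ i j, w K (m i - m j) * (U i * U j) = w K (m i - m j) * (U' i * U' j) +
        ((1 - 1 / (K : ℝ)) * (V i * V j) + (V i * (w K (m j) * U' j) +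
          (w K (m i) * U' i) * V j)) := by
      intro i j
      rw [hV, hU']
      simp only
      by_cases hi : m i = 0
      · by_cases hj : m j = 0
        · rw [if_pos hi, if_pos hj, if_pos hi, if_pos hj, hi, hj, sub_zero, w_zero K hK]
          ring
        · rw [if_pos hi, if_neg hj, if_pos hi, if_neg hj, hi, zero_sub, w_neg]
          ring
      · by_cases hj : m j = 0
        · rw [if_neg hi, if_pos hj, if_neg hi, if_pos hj, hj, sub_zero]
          ring
        · rw [if_neg hi, if_neg hj, if_neg hi, if_neg hj]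
          ring
    unfold W
    rw [Finset.sum_congr rfl fun i _ => Finset.sum_congr rfl fun j _ => e1 i j]
    simp only [Finset.sum_add_distrib, ← Finset.mul_sum, ← Finset.sum_mul]
    rw [hsumV, ← hQ]
    ring
  -- the mixed term
  have hQ2 : Q ^ 2 ≤ E / K := by
    have e1 : Q = -(1 / (K : ℝ) ^ 2 * ∑ p ∈ range K, ∑ q ∈ range K,
        fib I m U' ((p : ℤ) - q)) := by
      have e2 : ∀ i ∈ I, w K (m i) * U' i = -(1 / (K : ℝ) ^ 2 * ∑ p ∈ range K, ∑ q ∈ range K,
          (if m i = (p : ℤ) - q then U' i else 0)) := by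
        intro i _
        by_cases hi : m i = 0
        · have h0 : U' i = 0 := by rw [hU']; simp only; rw [if_pos hi]
          rw [h0]
          simp
        · rw [w_ne K _ hi, neg_mul, mul_assoc, Finset.sum_mul]
          congr 2
          refine Finset.sum_congr rfl fun p _ => ?_
          rw [Finset.sum_mul]
          refine Finset.sum_congr rfl fun q _ => ?_
          split_ifs <;> ring
      rw [hQ, Finset.sum_congr rfl e2, Finset.sum_neg_distrib, ← Finset.mul_sum]
      congr 2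
      rw [Finset.sum_comm]
      refine Finset.sum_congr rfl fun p _ => ?_
      rw [Finset.sum_comm]
      rfl
    have e3 : ∀ z, (fib I m U' z) ^ 2 ≤ (fib I m U z) ^ 2 := by
      intro z
      by_cases hz : z = 0
      · have : fib I m U' z = 0 := by
          unfold fib
          refine Finset.sum_eq_zero fun i _ => ?_
          rw [hU', hz]
          simp only
          split_ifs <;> rfl
        rw [this, zero_pow two_ne_zero]
        exact sq_nonneg _
      · have : fib I m U' z = fib I m U z := by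
          unfold fib
          refine Finset.sum_congr rfl fun i _ => ?_
          rw [hU']
          simp only
          by_cases hi : m i = z
          · rw [if_pos hi, if_pos hi, if_neg (by rw [hi]; exact hz)]
          · rw [if_neg hi, if_neg hi]
        rw [this]
    have e4 : (∑ x ∈ range K ×ˢ range K, fib I m U' ((x.1 : ℤ) - x.2)) ^ 2 ≤
        ((range K ×ˢ range K).card : ℝ) *
          ∑ x ∈ range K ×ˢ range K, (fib I m U' ((x.1 : ℤ) - x.2)) ^ 2 :=
      sq_sum_le_card_mul_sum_sq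
    have e5 : ∑ x ∈ range K ×ˢ range K, (fib I m U' ((x.1 : ℤ) - x.2)) ^ 2 ≤ K * E := by
      rw [Finset.sum_product]
      have e6 : ∀ p ∈ range K, ∑ q ∈ range K, (fib I m U' ((p : ℤ) - q)) ^ 2 ≤ E := by
        intro p _
        refine (Finset.sum_le_sum fun q _ => e3 _).trans ?_
        rw [hE]
        have hinj : Set.InjOn (fun q : ℕ => (p : ℤ) - q) (range K : Set ℕ) := by
          intro a _ b _ hab
          simp only at hab
          omega
        have e7 := Finset.sum_image (s := range K) (g := fun q : ℕ => (p : ℤ) - q)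
          (f := fun z => (fib I m U z) ^ 2) hinj
        rw [← e7]
        exact sum_fib_le I m U _
      refine (Finset.sum_le_sum e6).trans ?_
      rw [Finset.sum_const, card_range, nsmul_eq_mul]
    rw [card_product, card_range, Finset.sum_product] at e4
    have e8 : (∑ p ∈ range K, ∑ q ∈ range K, fib I m U' ((p : ℤ) - q)) ^ 2 ≤
        (K : ℝ) ^ 3 * E := by
      refine e4.trans ?_
      have : ((K * K : ℕ) : ℝ) = (K : ℝ) ^ 2 := by push_cast; ring
      rw [this]
      calc (K : ℝ) ^ 2 * ∑ x ∈ range K ×ˢ range K, (fib I m U' ((x.1 : ℤ) - x.2)) ^ 2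
          ≤ (K : ℝ) ^ 2 * (K * E) := mul_le_mul_of_nonneg_left e5 (by positivity)
        _ = _ := by ring
    rw [e1]
    calc (-(1 / (K : ℝ) ^ 2 * ∑ p ∈ range K, ∑ q ∈ range K, fib I m U' ((p : ℤ) - q))) ^ 2
        = (1 / (K : ℝ) ^ 2) ^ 2 * (∑ p ∈ range K, ∑ q ∈ range K,
            fib I m U' ((p : ℤ) - q)) ^ 2 := by ring
      _ ≤ (1 / (K : ℝ) ^ 2) ^ 2 * ((K : ℝ) ^ 3 * E) := mul_le_mul_of_nonneg_left e8 (by positivity)
      _ = E / K := by field_simp
  have hg0E : g0 ^ 2 ≤ E := by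
    have := sum_fib_le I m U {0}
    rw [Finset.sum_singleton, ← hg0, ← hE] at this
    exact this
  have hE0 : 0 ≤ E := (sq_nonneg g0).trans hg0E
  have hW' := h1 ι K I m U' hK
  obtain ⟨s, hs⟩ : ∃ s, s = Real.sqrt K := ⟨_, rfl⟩
  have hs2 : s ^ 2 = K := by rw [hs, Real.sq_sqrt hK0.le]
  have hs1 : 1 ≤ s := by rw [hs]; exact Real.one_le_sqrt.2 hKr
  have hs0 : 0 < s := by linarith
  rw [← hg0, ← hE, ← hs, hdec]
  rw [← hs2] at hQ2 ⊢
  -- `2 |g0 Q| ≤ g0 ^ 2 / s + s Q ^ 2`
  have k1 : -(g0 ^ 2 / s + s * Q ^ 2) ≤ 2 * g0 * Q := by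
    have : 0 ≤ (g0 + s * Q) ^ 2 / s := by positivity
    have e : (g0 + s * Q) ^ 2 / s = g0 ^ 2 / s + s * Q ^ 2 + 2 * g0 * Q := by
      field_simp
      ring
    linarith
  have k2 : s * Q ^ 2 ≤ E / s := by
    calc s * Q ^ 2 ≤ s * (E / s ^ 2) := mul_le_mul_of_nonneg_left hQ2 hs0.le
      _ = E / s := by field_simp
  have k3 : g0 ^ 2 / s ≤ E / s := div_le_div_of_nonneg_right hg0E hs0.le
  have k4 : 1 / s ^ 2 * g0 ^ 2 ≤ E / s := by
    have h1s : 1 / s ^ 2 ≤ 1 / s := by
      apply one_div_le_one_div_of_le hs0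
      nlinarith
    calc 1 / s ^ 2 * g0 ^ 2 ≤ 1 / s * E := mul_le_mul h1s hg0E (sq_nonneg _) (by positivity)
      _ = E / s := by ring
  have k5 : 0 ≤ E / s := by positivity
  have e9 : 4 / s * E = 4 * (E / s) := by ring
  rw [e9]
  have e10 : (1 - 1 / s ^ 2) * g0 ^ 2 = g0 ^ 2 - 1 / s ^ 2 * g0 ^ 2 := by ring
  rw [e10]
  linarith

end Pool.Agent.W177.EB
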